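import Pool.Agent.H621.MM.Orth
import Pool.Agent.H802T.Step
import Pool.Agent.H204R3.SP.Tate

/-!
# The symplectic group and multilinear maps killed by its Lie algebra
-/

set_option autoImplicit false
set_option linter.unusedSectionVars false

namespace Pool.Agent.H621.MM

open Module Finset Function Pool.Agent.TH125.Gal Pool.Agent.TH125.Nod

variable {K : Type} [Field K] [CharZero K] {V : Type} [AddCommGroup V] [Module K V]
  {B : V →ₗ[K] V →ₗ[K] K} {S : Type} [Fintype S] [DecidableEq S]

/-- A multilinear map in terms of its values on basis vectors. -/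
theorem expand_basis {E : Type} [AddCommGroup E] [Module K E] {J : Type} [Fintype J]
    [DecidableEq J] (t : Basis J K V) (h : MultilinearMap K (fun _ : S => V) E) (v : S → V) :
    h v = ∑ r : S → J, (∏ j, t.repr (v j) (r j)) • h fun j => t (r j) := by
  have e2 : v = fun j => ∑ α, t.repr (v j) α • t α := by
    funext j
    exact (t.sum_repr (v j)).symm
  conv_lhs => rw [e2]
  rw [h.map_sum fun j α => t.repr (v j) α • t α]
  refine Finset.sum_congr rfl fun r _ => ?_
  rw [h.map_smul_univ]

/-- The product of the forms over a matching. -/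
noncomputable def pm (B : V →ₗ[K] V →ₗ[K] K) {m : ℕ} (e : Fin m × Fin 2 ≃ S) :
    MultilinearMap K (fun _ : S => V) K :=
  (Pool.Agent.H204R3.CM.prodMap (fun _ : Fin m => Pool.Agent.H204R3.SP.bil2 B)).domDomCongr e

theorem pm_apply {m : ℕ} (e : Fin m × Fin 2 ≃ S) (v : S → V) :
    pm B e v = ∏ l, B (v (e (l, 0))) (v (e (l, 1))) := rfl

/-- **The action on the multilinear maps which are killed by the symplectic Lie algebra.** -/
theorem symp_scalar [FiniteDimensional K V] (hsy : ∀ x y, B x y = ((-1 : ℤ) : K) * B y x)
    (hnd : ∀ x, (∀ y, B x y = 0) → x = 0) {g : End K V} {c : K}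
    (hg : ∀ x y, B (g x) (g y) = c * B x y) {r : K}
    (hr : ∀ m, Fintype.card S = 2 * m → r = c ^ m) (E : Type) [AddCommGroup E] [Module K E]
    (h : MultilinearMap K (fun _ : S => V) E) (hh : ∀ X, Skew B X → Kill X h) (v : S → V) :
    h (fun j => g (v j)) = r • h v := by
  classical
  let t := Module.finBasis K V
  have h1 := H802T.gen_mem2 (S := S) (Or.inr rfl) hsy hnd hh t (fun h => absurd h (by decide))
  have key : ∀ F ∈ Gen (fun _ : Fin (finrank K V) => ()) (Matrix.of fun i j => B (t i) (t j))
      (fun _ : S => ()), ∀ v : S → V,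
      ∑ q : S → Fin (finrank K V), (∏ j, t.repr (g (v j)) (q j)) • (F q : E) =
        r • ∑ q : S → Fin (finrank K V), (∏ j, t.repr (v j) (q j)) • (F q : E) := by
    intro F hF
    induction hF using Submodule.span_induction with
    | mem F hF =>
      obtain ⟨m, e, w, rfl⟩ := hF
      have h2 : ∀ v : S → V, ∑ q : S → Fin (finrank K V), (∏ j, t.repr (v j) (q j)) •
          (gen (fun _ : Fin (finrank K V) => ()) (Matrix.of fun i j => B (t i) (t j))
            (fun _ : S => ()) e w q : E) = pm B e v • w := by
        intro v
        rw [expand_basis t (pm B e) v, Finset.sum_smul]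
        refine Finset.sum_congr rfl fun q _ => ?_
        rw [gen, if_pos (fun _ => rfl), pm_apply, smul_eq_mul, mul_smul]
        rfl
      intro v
      rw [h2, h2, smul_smul]
      congr 1
      have hc : Fintype.card S = 2 * m := by
        rw [← Fintype.card_congr e, Fintype.card_prod, Fintype.card_fin, Fintype.card_fin,
          mul_comm]
      rw [pm_apply, pm_apply, hr m hc]
      simp only [hg]
      rw [Finset.prod_mul_distrib, Finset.prod_const, Finset.card_univ, Fintype.card_fin]
    | zero =>
      intro v
      simp only [Pi.zero_apply, smul_zero, Finset.sum_const_zero]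
    | add F F' _ _ hF hF' =>
      intro v
      simp only [Pi.add_apply, smul_add, Finset.sum_add_distrib]
      rw [hF, hF']
    | smul x F _ hF =>
      intro v
      have h2 : ∀ v : S → V, ∑ q : S → Fin (finrank K V), (∏ j, t.repr (v j) (q j)) •
          ((x • F) q : E) = x • ∑ q : S → Fin (finrank K V), (∏ j, t.repr (v j) (q j)) •
          (F q : E) := by
        intro v
        rw [Finset.smul_sum]
        refine Finset.sum_congr rfl fun q _ => ?_
        rw [Pi.smul_apply, smul_comm]
      rw [h2, h2, hF, smul_comm]
  have h3 := key _ h1 v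
  rw [expand_basis t h v, expand_basis t h fun j => g (v j)]
  exact h3

end Pool.Agent.H621.MM
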