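import Pool.Agent.H621.MM.Defs
import Pool.Agent.H621.MM.Sym
import Pool.Agent.H621.FX.Twr

/-!
# Classes with variables in a motive which are killed by the Lie algebra of its form
-/

set_option autoImplicit false
set_option linter.unusedSectionVars false

namespace Pool.Agent.H621.MM

open Module Finset Function Pool.Agent.TH125.Gal

variable {K : Type} [Field K] [CharZero K] [IsAlgClosed K] {R : Type} {Γ : R → Type}
  [∀ r, Group (Γ r)] {χ : ∀ r, Γ r →* Kˣ}

theorem cyc_val {G : Type} [Group G] (χ : G →* Kˣ) (j : ℤ) (g : G) :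
    ((cyc χ j g : Kˣ) : K) = (χ g : K) ^ j := Units.val_zpow_eq_zpow_val _ _

theorem Motive.nondeg (M : Motive χ) (r : R) : ∀ x, (∀ y, M.form x y = 0) → x = 0 :=
  (M.isPol r).nondeg

theorem Motive.symm (M : Motive χ) (r : R) (x y : M.V) :
    M.form x y = (-1 : K) ^ M.weight * M.form y x := (M.isPol r).symm x y

theorem Motive.act (M : Motive χ) (r : R) (g : Γ r) (x y : M.V) :
    M.form (M.ρ r g x) (M.ρ r g y) = (χ r g : K) ^ M.weight * M.form x y := by
  rw [← cyc_val]
  exact (M.isPol r).act g x y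

theorem isClass_iff {I : Type} (M : I → Motive χ) (r : R) (j : ℤ)
    (Φ : MultilinearMap K (fun i => (M i).V) K) : IsClass M r j Φ ↔
    ∃ Δ : Subgroup (Γ r), Δ.FiniteIndex ∧ ∀ g ∈ Δ, ∀ v,
      Φ (fun i => (M i).ρ r g (v i)) = (χ r g : K) ^ j * Φ v := by
  refine exists_congr fun Δ => and_congr_right fun _ => forall₂_congr fun g _ =>
    forall_congr' fun v => ?_
  rw [cyc_val]
  rfl

theorem isLine_iff {I : Type} (M : I → Motive χ) (r : R)
    (Φ : MultilinearMap K (fun i => (M i).V) K) : IsLine M r Φ ↔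
    ∃ Δ : Subgroup (Γ r), Δ.FiniteIndex ∧ ∀ g ∈ Δ, ∃ a : K, ∀ v,
      Φ (fun i => (M i).ρ r g (v i)) = a * Φ v := Iff.rfl

/-- **The action on the multilinear maps which are killed by the Lie algebra.** -/
theorem scalar (M : Motive χ) (r : R) (S : Type) [Fintype S] [DecidableEq S] :
    ∃ Δ : Subgroup (Γ r), Δ.FiniteIndex ∧ ∀ g ∈ Δ, ∀ (E : Type) [AddCommGroup E] [Module K E]
      (h : MultilinearMap K (fun _ : S => M.V) E), (∀ X, Skew M.form X → Kill X h) →
      ∀ v, h (fun j => M.ρ r g (v j)) =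
        (χ r g : K) ^ ((M.weight * Fintype.card S) / 2) • h v := by
  classical
  rcases Int.even_or_odd' M.weight with ⟨a, ha | ha⟩
  · -- even weight
    have hsy : ∀ x y, M.form x y = M.form y x := by
      intro x y
      have h1 := M.symm r x y
      rw [ha, zpow_mul, zpow_ofNat, neg_one_sq, one_zpow, one_mul] at h1
      exact h1
    obtain ⟨Δ, hΔ, h⟩ := orth_scalar (S := S) hsy (M.nondeg r) (M.ρ r)
      ((zpowGroupHom a).comp (χ r)) (fun g x y => by
        rw [M.act r g x y, ha]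
        congr 1
        change (χ r g : K) ^ (2 * a) = ((χ r g ^ a : Kˣ) : K) ^ 2
        rw [Units.val_zpow_eq_zpow_val, mul_comm, zpow_mul, zpow_ofNat])
    refine ⟨Δ, hΔ, fun g hg E _ _ f hf v => ?_⟩
    rw [h g hg E f hf v]
    congr 1
    change ((χ r g ^ a : Kˣ) : K) ^ Fintype.card S = _
    have h1 : M.weight * (Fintype.card S : ℤ) / 2 = a * Fintype.card S := by
      rw [ha, mul_assoc, Int.mul_ediv_cancel_left _ two_ne_zero]
    rw [h1, Units.val_zpow_eq_zpow_val, zpow_mul, zpow_natCast]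
  · -- odd weight
    have hsy : ∀ x y, M.form x y = ((-1 : ℤ) : K) * M.form y x := by
      intro x y
      have h1 := M.symm r x y
      rw [ha, zpow_add₀ (by norm_num), zpow_mul, zpow_ofNat, neg_one_sq, one_zpow, one_mul,
        zpow_one] at h1
      rw [h1, Int.cast_neg, Int.cast_one]
    refine ⟨⊤, inferInstance, fun g _ E _ _ f hf v => ?_⟩
    refine symp_scalar hsy (M.nondeg r) (M.act r g) (fun m hm => ?_) E f hf v
    have h1 : M.weight * (Fintype.card S : ℤ) / 2 = M.weight * m := by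
      rw [hm]
      push_cast
      rw [show M.weight * (2 * (m : ℤ)) = 2 * (M.weight * m) by ring,
        Int.mul_ediv_cancel_left _ two_ne_zero]
    rw [h1, zpow_mul, zpow_natCast]

section reindex

variable {I I' : Type} (M : I → Motive χ) (e : I' ≃ I)

/-- The change of the variables. -/
def ev : (∀ i, (M i).V) ≃ (∀ i', (M (e i')).V) := Equiv.piCongrLeft' (fun i => (M i).V) e.symm

theorem ev_apply (v : ∀ i, (M i).V) (i' : I') : ev M e v i' = v (e i') := rfl

/-- The form in the new variables. -/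
def rx (Φ : MultilinearMap K (fun i => (M i).V) K) :
    MultilinearMap K (fun i' => (M (e i')).V) K :=
  MultilinearMap.domDomCongrLinearEquiv' K K (fun i => (M i).V) K e.symm Φ

theorem rx_apply (Φ : MultilinearMap K (fun i => (M i).V) K) (v : ∀ i, (M i).V) :
    rx M e Φ (fun i' => v (e i')) = Φ v := by
  have h1 : rx M e Φ (ev M e v) = Φ ((ev M e).symm (ev M e v)) := rfl
  rw [Equiv.symm_apply_apply] at h1
  exact h1

theorem rx_class {r : R} {j : ℤ} {Φ : MultilinearMap K (fun i => (M i).V) K} :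
    IsClass (fun i' => M (e i')) r j (rx M e Φ) ↔ IsClass M r j Φ := by
  rw [isClass_iff, isClass_iff]
  refine exists_congr fun Δ => and_congr_right fun _ => forall₂_congr fun g _ => ?_
  constructor
  · intro h v
    have h1 := h fun i' => v (e i')
    rw [rx_apply] at h1
    rw [← h1, ← rx_apply M e Φ fun i => (M i).ρ r g (v i)]
  · intro h v'
    obtain ⟨v, rfl⟩ := (ev M e).surjective v'
    have h1 := h v
    have h2 := rx_apply M e Φ fun i => (M i).ρ r g (v i)
    have h3 := rx_apply M e Φ v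
    change rx M e Φ (fun i' => (M (e i')).ρ r g (v (e i'))) = _ * rx M e Φ (fun i' => v (e i'))
    rw [h2, h3, h1]

theorem rx_line {r : R} {Φ : MultilinearMap K (fun i => (M i).V) K} :
    IsLine (fun i' => M (e i')) r (rx M e Φ) ↔ IsLine M r Φ := by
  rw [isLine_iff, isLine_iff]
  refine exists_congr fun Δ => and_congr_right fun _ => forall₂_congr fun g _ =>
    exists_congr fun a => ?_
  constructor
  · intro h v
    have h1 := h fun i' => v (e i')
    rw [rx_apply] at h1
    rw [← h1, ← rx_apply M e Φ fun i => (M i).ρ r g (v i)]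
  · intro h v'
    obtain ⟨v, rfl⟩ := (ev M e).surjective v'
    have h1 := h v
    have h2 := rx_apply M e Φ fun i => (M i).ρ r g (v i)
    have h3 := rx_apply M e Φ v
    change rx M e Φ (fun i' => (M (e i')).ρ r g (v (e i'))) = _ * rx M e Φ (fun i' => v (e i'))
    rw [h2, h3, h1]

end reindex

/-- All classes for `r` are classes for `r'`. -/
def Cm {I : Type} (M : I → Motive χ) (r r' : R) : Prop :=
  ∀ (j : ℤ) (Φ : MultilinearMap K _ K), IsClass M r j Φ → IsClass M r' j Φ

/-- All stable lines for `r` are stable for `r'`. -/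
def Ln {I : Type} (M : I → Motive χ) (r r' : R) : Prop :=
  ∀ (Φ : MultilinearMap K _ K), IsLine M r Φ → IsLine M r' Φ

theorem Cm.of_equiv {I I' : Type} {M : I → Motive χ} (e : I' ≃ I) {r r' : R}
    (h : Cm (fun i' => M (e i')) r r') : Cm M r r' := fun j _ hΦ =>
  (rx_class M e).1 (h j _ ((rx_class M e).2 hΦ))

theorem Ln.of_equiv {I I' : Type} {M : I → Motive χ} (e : I' ≃ I) {r r' : R}
    (h : Ln (fun i' => M (e i')) r r') : Ln M r r' := fun _ hΦ =>
  (rx_line M e).1 (h _ ((rx_line M e).2 hΦ))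

section step

variable {S I : Type} [Fintype S] [DecidableEq S] [Fintype I] [DecidableEq I] (T : Motive χ)
  (M : I → Motive χ)

/-- The variables of `T` and the other variables. -/
def jn : S ⊕ I → Motive χ := Sum.elim (fun _ => T) M

variable {T M}

/-- The form as a multilinear map to the forms in the other variables. -/
def cur (Φ : MultilinearMap K (fun q : S ⊕ I => (jn T M q).V) K) :
    MultilinearMap K (fun _ : S => T.V) (MultilinearMap K (fun i => (M i).V) K) :=
  MultilinearMap.currySum Φ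

/-- The variables together. -/
def jv (v : S → T.V) (u : ∀ i, (M i).V) : ∀ q : S ⊕ I, (jn T M q).V := fun q => match q with
  | Sum.inl j => v j
  | Sum.inr i => u i

theorem cur_apply (Φ : MultilinearMap K (fun q : S ⊕ I => (jn T M q).V) K) (v : S → T.V)
    (u : ∀ i, (M i).V) : cur Φ v u = Φ (jv v u) := by
  change Φ _ = Φ _
  congr 1
  funext q
  rcases q with q | q <;> rfl

theorem jv_surj (w : ∀ q : S ⊕ I, (jn T M q).V) : ∃ v u, w = jv v u := by
  refine ⟨fun j => w (Sum.inl j), fun i => w (Sum.inr i), ?_⟩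
  funext q
  rcases q with q | q <;> rfl

theorem jv_act (r : R) (g : Γ r) (v : S → T.V) (u : ∀ i, (M i).V) :
    (fun q : S ⊕ I => (jn T M q).ρ r g (jv v u q)) =
      jv (fun j => T.ρ r g (v j)) fun i => (M i).ρ r g (u i) := by
  funext q
  rcases q with q | q <;> rfl

/-- The form is killed by the Lie algebra of `T`. -/
def Killed (Φ : MultilinearMap K (fun q : S ⊕ I => (jn T M q).V) K) : Prop :=
  ∀ X, Skew T.form X → Kill X (cur Φ)

/-- The semi-invariance of the forms in the other variables. -/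
theorem act_cur {Φ : MultilinearMap K (fun q : S ⊕ I => (jn T M q).V) K} {r : R} {g : Γ r}
    {l : K} (hl : l ≠ 0) (h : ∀ v, cur Φ (fun j => T.ρ r g (v j)) = l • cur Φ v) {a : K} :
    (∀ w, Φ (fun q => (jn T M q).ρ r g (w q)) = a * Φ w) ↔
      ∀ v u, cur Φ v (fun i => (M i).ρ r g (u i)) = (a / l) * cur Φ v u := by
  constructor
  · intro h1 v u
    have h2 := h1 (jv v u)
    rw [jv_act, ← cur_apply, ← cur_apply, h, _root_.smul_apply, smul_eq_mul] at h2
    rw [div_mul_eq_mul_div, eq_div_iff hl, mul_comm, h2]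
  · intro h1 w
    obtain ⟨v, u, rfl⟩ := jv_surj w
    rw [jv_act, ← cur_apply, ← cur_apply, h, _root_.smul_apply, smul_eq_mul, h1]
    field_simp

/-- A finite intersection of subgroups of finite index. -/
theorem exists_common {G : Type} [Group G] {A : Type} [Finite A] {P : A → G → Prop}
    (h : ∀ a, ∃ Δ : Subgroup G, Δ.FiniteIndex ∧ ∀ g ∈ Δ, P a g) :
    ∃ Δ : Subgroup G, Δ.FiniteIndex ∧ ∀ g ∈ Δ, ∀ a, P a g := by
  choose Δ h1 h2 using h
  refine ⟨⨅ a, Δ a, ?_, fun g hg a => h2 a g (Subgroup.mem_iInf.1 hg a)⟩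
  exact Subgroup.finiteIndex_iInf h1

/-- **One more motive: classes.** -/
theorem cm_step {r r' : R}
    (hk : ∀ Φ : MultilinearMap K (fun q : S ⊕ I => (jn T M q).V) K, IsLine (jn T M) r Φ → Killed Φ)
    (h : Cm M r r') : Cm (jn T M : S ⊕ I → Motive χ) r r' := by
  classical
  intro j Φ hΦ
  rw [isClass_iff] at hΦ ⊢
  have hkil : Killed Φ := hk Φ (by
    obtain ⟨Δ, hΔ, h1⟩ := hΦ
    exact ⟨Δ, hΔ, fun g hg => ⟨_, h1 g hg⟩⟩)
  obtain ⟨Δ, hΔ, h1⟩ := hΦ
  obtain ⟨Δ₁, hΔ₁, h2⟩ := scalar T r S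
  obtain ⟨Δ₂, hΔ₂, h3⟩ := scalar T r' S
  set m : ℤ := (T.weight * Fintype.card S) / 2 with hm
  have h4 : ∀ v, IsClass M r (j - m) (cur Φ v) := by
    intro v
    rw [isClass_iff]
    refine ⟨Δ ⊓ Δ₁, inferInstance, fun g hg u => ?_⟩
    have h5 := (act_cur (zpow_ne_zero m (χ r g).ne_zero)
      (fun v => h2 g hg.2 _ (cur Φ) hkil v)).1 (h1 g hg.1) v u
    rw [h5, zpow_sub₀ (χ r g).ne_zero]
  let t := Module.finBasis K T.V
  obtain ⟨Δ₃, hΔ₃, h5⟩ := exists_common (A := S → Fin (finrank K T.V))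
    (P := fun q g => ∀ u, cur Φ (fun j => t (q j)) (fun i => (M i).ρ r' g (u i)) =
      (χ r' g : K) ^ (j - m) * cur Φ (fun j => t (q j)) u)
    fun q => (isClass_iff _ _ _ _).1 (h (j - m) _ (h4 fun j => t (q j)))
  refine ⟨Δ₂ ⊓ Δ₃, inferInstance, fun g hg => ?_⟩
  refine (act_cur (zpow_ne_zero m (χ r' g).ne_zero)
    (fun v => h3 g hg.1 _ (cur Φ) hkil v)).2 fun v u => ?_
  rw [← zpow_sub₀ (χ r' g).ne_zero, expand_basis t (cur Φ) v, _root_.sum_apply,
    _root_.sum_apply, Finset.mul_sum]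
  refine Finset.sum_congr rfl fun q _ => ?_
  rw [_root_.smul_apply, _root_.smul_apply, smul_eq_mul, smul_eq_mul, h5 g hg.2 q]
  ring

/-- Eigenvectors with sums which are eigenvectors. -/
theorem eig_common {E : Type} [AddCommGroup E] [Module K E] (A : E →ₗ[K] E) {x y : E} {a b c : K}
    (hx0 : x ≠ 0) (hx : A x = a • x) (hy : A y = b • y) (hxy : A (x + y) = c • (x + y)) :
    A y = a • y := by
  have h1 : (a - c) • x + (b - c) • y = 0 := by
    rw [map_add, hx, hy, smul_add] at hxy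
    rw [sub_smul, sub_smul, sub_add_sub_comm, hxy, sub_self]
  by_cases hbc : b - c = 0
  · rw [hbc, zero_smul, add_zero] at h1
    have h2 := (smul_eq_zero.1 h1).resolve_right hx0
    have h3 : b = a := by linear_combination hbc - h2
    rw [hy, h3]
  · have h2 : y = (-((a - c) / (b - c))) • x := by
      have h3 : (b - c) • y = -((a - c) • x) := by
        rw [eq_neg_iff_add_eq_zero, add_comm, h1]
      have h4 := congrArg (fun z => (b - c)⁻¹ • z) h3
      beta_reduce at h4
      rw [smul_smul, inv_mul_cancel₀ hbc, one_smul, smul_neg, smul_smul] at h4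
      rw [h4, neg_smul, div_eq_inv_mul]
    rw [h2, map_smul, hx, smul_comm]

/-- The action on the forms in the other variables. -/
def opm (M : I → Motive χ) (r : R) (g : Γ r) :
    MultilinearMap K (fun i => (M i).V) K →ₗ[K] MultilinearMap K (fun i => (M i).V) K :=
  MultilinearMap.compLinearMapₗ fun i => (M i).ρ r g

theorem opm_apply (r : R) (g : Γ r) (Ψ : MultilinearMap K (fun i => (M i).V) K)
    (u : ∀ i, (M i).V) : opm M r g Ψ u = Ψ fun i => (M i).ρ r g (u i) := rfl

/-- **One more motive: lines.** -/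
theorem ln_step {r r' : R}
    (hk : ∀ Φ : MultilinearMap K (fun q : S ⊕ I => (jn T M q).V) K, IsLine (jn T M) r Φ → Killed Φ)
    (h : Ln M r r') : Ln (jn T M : S ⊕ I → Motive χ) r r' := by
  classical
  intro Φ hΦ
  have hkil : Killed Φ := hk Φ hΦ
  rw [isLine_iff] at hΦ ⊢
  obtain ⟨Δ, hΔ, h1⟩ := hΦ
  obtain ⟨Δ₁, hΔ₁, h2⟩ := scalar T r S
  obtain ⟨Δ₂, hΔ₂, h3⟩ := scalar T r' S
  set m : ℤ := (T.weight * Fintype.card S) / 2 with hm
  have h4 : ∀ g ∈ Δ ⊓ Δ₁, ∃ a : K, ∀ v u, cur Φ v (fun i => (M i).ρ r g (u i)) =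
      a * cur Φ v u := by
    intro g hg
    obtain ⟨a, ha⟩ := h1 g hg.1
    exact ⟨_, (act_cur (zpow_ne_zero m (χ r g).ne_zero)
      (fun v => h2 g hg.2 _ (cur Φ) hkil v)).1 ha⟩
  let t := Module.finBasis K T.V
  let Ψ : (S → Fin (finrank K T.V)) → MultilinearMap K (fun i => (M i).V) K :=
    fun q => cur Φ fun j => t (q j)
  have h5 : ∀ q q', IsLine M r (Ψ q + Ψ q') := by
    intro q q'
    rw [isLine_iff]
    refine ⟨Δ ⊓ Δ₁, inferInstance, fun g hg => ?_⟩
    obtain ⟨a, ha⟩ := h4 g hg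
    refine ⟨a, fun u => ?_⟩
    rw [_root_.add_apply, _root_.add_apply, ha, ha]
    ring
  have h5' : ∀ q, IsLine M r (Ψ q) := by
    intro q
    rw [isLine_iff]
    refine ⟨Δ ⊓ Δ₁, inferInstance, fun g hg => ?_⟩
    obtain ⟨a, ha⟩ := h4 g hg
    exact ⟨a, ha _⟩
  obtain ⟨Δ₃, hΔ₃, h6⟩ := exists_common (A := S → Fin (finrank K T.V))
    (P := fun q g => ∃ a : K, ∀ u, Ψ q (fun i => (M i).ρ r' g (u i)) = a * Ψ q u)
    fun q => h _ (h5' q)
  obtain ⟨Δ₄, hΔ₄, h7⟩ := exists_common
    (A := (S → Fin (finrank K T.V)) × (S → Fin (finrank K T.V)))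
    (P := fun q g => ∃ a : K, ∀ u, (Ψ q.1 + Ψ q.2) (fun i => (M i).ρ r' g (u i)) =
      a * (Ψ q.1 + Ψ q.2) u)
    fun q => h _ (h5 q.1 q.2)
  refine ⟨Δ₂ ⊓ (Δ₃ ⊓ Δ₄), inferInstance, fun g hg => ?_⟩
  obtain ⟨a, ha⟩ : ∃ a : K, ∀ q, opm M r' g (Ψ q) = a • Ψ q := by
    by_cases h0 : ∀ q, Ψ q = 0
    · exact ⟨0, fun q => by rw [h0 q, map_zero, smul_zero]⟩
    · push Not at h0
      obtain ⟨q₀, hq₀⟩ := h0
      obtain ⟨a, ha⟩ := h6 g hg.2.1 q₀
      have ha' : opm M r' g (Ψ q₀) = a • Ψ q₀ := MultilinearMap.ext fun u => ha u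
      refine ⟨a, fun q => ?_⟩
      obtain ⟨b, hb⟩ := h6 g hg.2.1 q
      obtain ⟨c, hc⟩ := h7 g hg.2.2 (q₀, q)
      exact eig_common (opm M r' g) hq₀ ha' (b := b) (c := c) (MultilinearMap.ext fun u => hb u)
        (MultilinearMap.ext fun u => hc u)
  refine ⟨a * (χ r' g : K) ^ m, (act_cur (zpow_ne_zero m (χ r' g).ne_zero)
    (fun v => h3 g hg.1 _ (cur Φ) hkil v)).2 fun v u => ?_⟩
  rw [mul_div_cancel_right₀ _ (zpow_ne_zero m (χ r' g).ne_zero), expand_basis t (cur Φ) v,
    _root_.sum_apply, _root_.sum_apply, Finset.mul_sum]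
  refine Finset.sum_congr rfl fun q _ => ?_
  have h8 := congrArg (fun F : MultilinearMap K (fun i => (M i).V) K => F u) (ha q)
  beta_reduce at h8
  rw [opm_apply, _root_.smul_apply, smul_eq_mul] at h8
  rw [_root_.smul_apply, _root_.smul_apply, smul_eq_mul, smul_eq_mul]
  change _ * Ψ q (fun i => (M i).ρ r' g (u i)) = a * (_ * Ψ q u)
  rw [h8]
  ring

end step

end Pool.Agent.H621.MM
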