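import Mathlib

/-!
# Polarised motives with their realisations: definitions

`K` is an algebraically closed field of characteristic zero which contains `ℚ` and `ℚ_ℓ`, for instance
`ℂ` (which is isomorphic to an algebraic closure of `ℚ_ℓ`). `R` is a set of realisations: the Hodge
realisation, the motivic realisation and the `ℓ`-adic realisations. For each of them there is a
group `Γ r`: the group of the `K`-valued points of the Mumford-Tate group, the same for the motivic
Galois group, and the Galois group of the base field `k`. By the comparison isomorphisms the groups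
`Γ r` act on the same `K`-vector space `V = H ⊗ K`. The character `χ r` is the action of `Γ r` on the
Tate motive `ℚ(-1)`.
-/

set_option autoImplicit false

namespace Pool.Agent.H621.MM

open Module

section one

/-! ### One realisation: a representation `ρ` of a group `Γ` on `V`, and a character `χ` of `Γ` -/

variable {K V : Type} [Field K] [AddCommGroup V] [Module K V] {Γ : Type} [Group Γ]

/-- The vector `ρ g x`. -/
def opr (ρ : Γ →* (V →ₗ[K] V)) (g : Γ) (x : V) : V := ρ g x

/-- The number `B x y`. -/
def val (B : V →ₗ[K] V →ₗ[K] K) (x y : V) : K := B x y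

/-- The number `χ(g) ^ j`. -/
def cyc (χ : Γ →* Kˣ) (j : ℤ) (g : Γ) : Kˣ := χ g ^ j

/-- `B` is a polarisation form of weight `w`: a nondegenerate bilinear form, symmetric for even `w` and
alternating for odd `w`, with values in `ℚ(-w)`, that is, `g ∈ Γ` multiplies it by `χ(g) ^ w`. -/
structure IsPol (χ : Γ →* Kˣ) (w : ℤ) (ρ : Γ →* (V →ₗ[K] V)) (B : V →ₗ[K] V →ₗ[K] K) : Prop where
  nondeg : ∀ x, (∀ y, val B x y = 0) → x = 0
  symm : ∀ x y, val B x y = (-1 : K) ^ w * val B y x
  act : ∀ g x y, val B (opr ρ g x) (opr ρ g y) = cyc χ w g * val B x y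

/-- Big monodromy: the Lie algebra of the orthogonal or symplectic group of the form `B` is not
commutative, and an irreducible representation of `Γ` (acting by conjugation). -/
def Big (ρ : Γ →* (V →ₗ[K] V)) (B : V →ₗ[K] V →ₗ[K] K) : Prop :=
  (∃ X ∈ B.skewAdjointSubmodule, ∃ Y ∈ B.skewAdjointSubmodule, X * Y ≠ Y * X) ∧
    ∀ U ≤ B.skewAdjointSubmodule, (∀ g, ∀ X ∈ U, ρ g * X * ρ g⁻¹ ∈ U) →
      U = ⊥ ∨ U = B.skewAdjointSubmodule

/-- `x` is a normalised eigenvalue of `g`: the number `b ^ 2 / χ(g) ^ w` for an eigenvalue `b`. -/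
def IsEig (χ : Γ →* Kˣ) (w : ℤ) (ρ : Γ →* (V →ₗ[K] V)) (g : Γ) (x : Kˣ) : Prop :=
  ∃ b : Kˣ, (∃ v, v ≠ 0 ∧ opr ρ g v = (b : K) • v) ∧ x = b ^ 2 / cyc χ w g

/-- A subgroup of finite index of `Γ` multiplies the multilinear form `Φ` by the `j`-th power of the
character `χ`. -/
def OfType (χ : Γ →* Kˣ) {I : Type} {V : I → Type} [∀ i, AddCommGroup (V i)]
    [∀ i, Module K (V i)] (ρ : ∀ i, Γ →* (V i →ₗ[K] V i)) (j : ℤ) (Φ : MultilinearMap K V K) :
    Prop :=
  ∃ Δ : Subgroup Γ, Δ.FiniteIndex ∧ ∀ g ∈ Δ, ∀ v, Φ (fun i => opr (ρ i) g (v i)) = cyc χ j g * Φ v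

/-- A subgroup of finite index of `Γ` maps the line spanned by the multilinear form `Φ` to itself. -/
def Stable {I : Type} {V : I → Type} [∀ i, AddCommGroup (V i)]
    [∀ i, Module K (V i)] (ρ : ∀ i, Γ →* (V i →ₗ[K] V i)) (Φ : MultilinearMap K V K) : Prop :=
  ∃ Δ : Subgroup Γ, Δ.FiniteIndex ∧ ∀ g ∈ Δ, ∃ a : K, ∀ v, Φ (fun i => opr (ρ i) g (v i)) = a * Φ v

end one

/-- A polarised motive with its realisations: a finite-dimensional space `V` with an action of all
groups `Γ r`, a weight `w` and a polarisation form with values in `ℚ(-w)`. -/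
structure Motive {K : Type} [Field K] {R : Type} {Γ : R → Type} [∀ r, Group (Γ r)]
    (χ : ∀ r, Γ r →* Kˣ) where
  /-- the space -/
  V : Type
  [grp : AddCommGroup V]
  [mod : Module K V]
  [fin : FiniteDimensional K V]
  /-- the actions -/
  ρ : ∀ r, Γ r →* (V →ₗ[K] V)
  /-- the weight -/
  weight : ℤ
  /-- the form -/
  form : V →ₗ[K] V →ₗ[K] K
  isPol : ∀ r, IsPol (χ r) weight (ρ r) form

attribute [instance] Motive.grp Motive.mod Motive.fin

variable {K : Type} [Field K] {R : Type} {Γ : R → Type} [∀ r, Group (Γ r)] {χ : ∀ r, Γ r →* Kˣ}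

/-- The rank of the motive. -/
noncomputable def Motive.rank (M : Motive χ) : ℕ := finrank K M.V

/-- The multilinear form `Φ` on the spaces of the motives `M i` is a class of type `j` for the
realisation `r`: a subgroup of finite index of `Γ r` acts on it by the `j`-th power of the Tate
character. These are (the combinations with coefficients in `K` of) the Hodge classes, the motivated
classes and the Tate classes in the Tate twists of the tensor product of the duals of the `M i`. (By
the forms the dual of a motive is one of its Tate twists.) -/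
def IsClass {I : Type} (M : I → Motive χ) (r : R) (j : ℤ)
    (Φ : MultilinearMap K (fun i => (M i).V) K) : Prop := OfType (χ r) (fun i => (M i).ρ r) j Φ

/-- The line spanned by the form `Φ` is stable under a subgroup of finite index of `Γ r`. -/
def IsLine {I : Type} (M : I → Motive χ) (r : R)
    (Φ : MultilinearMap K (fun i => (M i).V) K) : Prop := Stable (fun i => (M i).ρ r) Φ

variable {J N : Type}

/-- The members of the family `c` are among the `G j` and the `T i` with `i ∈ B`. -/
def Among (B : Set J) {n : ℕ} (c : Fin n → J ⊕ N) : Prop :=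
  ∀ k i, c k = Sum.inl i → i ∈ B

/-- All classes for the realisation `r` on the tensor products of the motives `G j` and of the motives
`T i` with `i ∈ B` are classes for the realisation `r'`. -/
def Classes (T : J → Motive χ) (G : N → Motive χ) (B : Set J) (r r' : R) : Prop :=
  ∀ (n : ℕ) (c : Fin n → J ⊕ N), Among B c → ∀ (j : ℤ) (Φ : MultilinearMap K _ K),
    IsClass (fun k => Sum.elim T G (c k)) r j Φ → IsClass (fun k => Sum.elim T G (c k)) r' j Φ

/-- The same for stable lines. -/
def Lines (T : J → Motive χ) (G : N → Motive χ) (B : Set J) (r r' : R) : Prop :=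
  ∀ (n : ℕ) (c : Fin n → J ⊕ N), Among B c → ∀ Φ : MultilinearMap K _ K,
    IsLine (fun k => Sum.elim T G (c k)) r Φ → IsLine (fun k => Sum.elim T G (c k)) r' Φ

/-- Big monodromy in the realisation `r`. -/
def Motive.Big (M : Motive χ) (r : R) : Prop := MM.Big (M.ρ r) M.form

/-- `x` is a normalised eigenvalue of `g ∈ Γ r` on the motive `M` of weight `w`: the number
`b ^ 2 / χ(g) ^ w` for an eigenvalue `b`. -/
def Motive.Eig (M : Motive χ) (r : R) (g : Γ r) (x : Kˣ) : Prop :=
  IsEig (χ r) M.weight (M.ρ r) g x

/-- For some `g ∈ Γ r` there are multiplicatively independent normalised eigenvalues of `g` on the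
motives `T i`, `i ∈ A`, where the number of those on `T i` is half of the rank of `T i`. -/
def Generic (T : J → Motive χ) (r : R) (A : Finset J) : Prop :=
  ∃ (g : Γ r) (x : (Σ i : A, Fin ((T i).rank / 2)) → Kˣ), (∀ q, (T q.1).Eig r g (x q)) ∧
    LinearIndependent ℤ fun q => Additive.ofMul (x q)

/-- The motive `M` is exceptional for the `G j` in the realisation `r`: for all `g ∈ Γ r`, some
positive power of each normalised eigenvalue of `g` on `M` is a product of normalised eigenvalues of
`g` on the `G j` and of their inverses. -/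
def Exceptional (G : N → Motive χ) (r : R) (M : Motive χ) : Prop :=
  ∀ (g : Γ r) (x : Kˣ), M.Eig r g x → ∃ n : ℕ, 0 < n ∧
    x ^ n ∈ Subgroup.closure {y : Kˣ | ∃ j, (G j).Eig r g y}

end Pool.Agent.H621.MM
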