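import Pool.Agent.H621.MM.Act

/-!
# Adding motives which are not exceptional
-/

set_option autoImplicit false
set_option linter.unusedSectionVars false

namespace Pool.Agent.H621.MM

open Module Finset Function Pool.Agent.TH125.Gal Pool.Agent.H802T Pool.Agent.H621.FX

variable {K : Type} [Field K] [CharZero K] [IsAlgClosed K] {R : Type} {Γ : R → Type}
  [∀ r, Group (Γ r)] {χ : ∀ r, Γ r →* Kˣ}

/-- The representation given by a realisation. -/
def toRep (r : R) (M : Motive χ) : PRep K (Γ r) where
  V := M.V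
  ρ := M.ρ r
  form := M.form
  mult := fun g => (χ r g : K) ^ M.weight
  sign := M.weight.negOnePow
  isPol := ⟨M.nondeg r, fun x y => by
    refine (M.symm r x y).trans ?_
    congr 1
    rcases Int.even_or_odd M.weight with h | h
    · rw [Int.negOnePow_even _ h, h.neg_one_zpow, Units.val_one, Int.cast_one]
    · rw [Int.negOnePow_odd _ h, h.neg_one_zpow, Units.val_neg, Units.val_one, Int.cast_neg,
        Int.cast_one], M.act r⟩

theorem big_rep {M : Motive χ} {r : R} (h : M.Big r) : (toRep r M).Big :=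
  (toRep r M).big_iff.1 h

theorem nev_rep {M : Motive χ} {r : R} {g : Γ r} {x : Kˣ} :
    Nev (toRep r M) g x ↔ M.Eig r g x := by
  constructor
  · rintro ⟨b, c, h1, h2, rfl⟩
    refine ⟨b, h2, ?_⟩
    congr 1
    apply Units.ext
    rw [h1, cyc_val]
    rfl
  · rintro ⟨b, h2, rfl⟩
    exact ⟨b, cyc (χ r) M.weight g, cyc_val _ _ _, h2, rfl⟩

variable {J N : Type} {T : J → Motive χ} {G : N → Motive χ} {r r' : R}

theorem exc_rep {M : Motive χ} : Exc (fun j => toRep r (G j)) (toRep r M) ↔ Exceptional G r M := by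
  refine forall₂_congr fun g x => ?_
  rw [nev_rep]
  refine imp_congr_right fun _ => exists_congr fun n => and_congr_right fun _ => ?_
  have h1 : nevGrp (fun j => toRep r (G j)) g =
      Subgroup.closure {y : Kˣ | ∃ j, (G j).Eig r g y} := by
    unfold nevGrp
    congr 1
    ext y
    exact exists_congr fun j => nev_rep
  rw [h1]

theorem gnc_rep {A : Finset J} (h : Generic T r A) : Gnc fun q : A => toRep r (T q) := by
  obtain ⟨g, x, h1, h2⟩ := h
  exact ⟨g, x, fun q => nev_rep.2 (h1 q), h2⟩

/-- **Classes are killed by the Lie algebra of a motive which is not exceptional.** -/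
theorem killed_of [Fintype N] (hbig : ∀ i, (T i).Big r) (hgen : ∀ A : Finset J, Generic T r A)
    {i : J} (hex : ¬ Exceptional G r (T i)) {S I : Type} [Fintype S] [DecidableEq S] [Fintype I]
    [DecidableEq I] (c : I → J ⊕ N) (hc : ∀ k, c k ≠ Sum.inl i)
    (Φ : MultilinearMap K (fun q : S ⊕ I => (jn (T i) (fun k => Sum.elim T G (c k)) q).V) K)
    (hΦ : IsLine (jn (T i) fun k => Sum.elim T G (c k)) r Φ) : Killed Φ := by
  classical
  let V : Finset (J ⊕ N) := insert (Sum.inl i) (Finset.univ.image c)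
  have hi : Sum.inl i ∈ V := Finset.mem_insert_self _ _
  have hcV : ∀ k, c k ∈ V := fun k =>
    Finset.mem_insert_of_mem (Finset.mem_image_of_mem c (Finset.mem_univ k))
  have hv := van_fam (T := fun i => toRep r (T i)) (G := fun j => toRep r (G j))
    (fun i => big_rep (hbig i)) (fun A => gnc_rep (hgen A)) V hi (fun h => hex (exc_rep.1 h))
  have hF : Fv (fun i => toRep r (T i)) (fun j => toRep r (G j)) V =
      fun q : {q // q ∈ V} => toRep r (Sum.elim T G (q : J ⊕ N)) := by
    funext ⟨q, hq⟩
    rcases q with q | q <;> rfl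
  rw [hF] at hv
  rw [isLine_iff] at hΦ
  obtain ⟨Δ, hΔ, h1⟩ := hΦ
  intro X hX v
  refine kill_gen (F := fun q : {q // q ∈ V} => toRep r (Sum.elim T G (q : J ⊕ N)))
    (o := ⟨Sum.inl i, hi⟩) (big_rep (hbig i)) hv.1 hv.2 (A := {q | q ≠ ⟨Sum.inl i, hi⟩})
    (fun h => h rfl) (τ := fun g => opm (fun k => Sum.elim T G (c k)) r g⁻¹) ?_ (h := cur Φ) ?_
    hX v
  · intro x hx
    refine ⟨I, inferInstance, fun k => ⟨c k, hcV k⟩, LinearMap.id, fun k h => hc k
      (congrArg Subtype.val h), ⟨⊤, inferInstance, fun g _ => ⟨1, fun z u => ?_⟩⟩, hx⟩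
    rw [one_mul]
    have h2 : (fun k => (Sum.elim T G (c k)).ρ r g⁻¹ ((Sum.elim T G (c k)).ρ r g (u k))) = u := by
      funext k
      exact (toRep r (Sum.elim T G (c k))).rinv' g (u k)
    exact (opm_apply r g⁻¹ z _).trans (congrArg z h2)
  · refine ⟨Δ, hΔ, fun g hg => ?_⟩
    obtain ⟨a, ha⟩ := h1 g hg
    have key : ∀ v : S → (T i).V, cur Φ (fun j => (T i).ρ r g (v j)) =
        a • opm (fun k => Sum.elim T G (c k)) r g⁻¹ (cur Φ v) := ?_
    · exact ⟨a, key⟩
    intro v
    refine MultilinearMap.ext fun u => ?_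
    have h2 := ha (jv v fun k => (Sum.elim T G (c k)).ρ r g⁻¹ (u k))
    rw [jv_act, ← cur_apply, ← cur_apply] at h2
    have h3 : (fun k => (Sum.elim T G (c k)).ρ r g ((Sum.elim T G (c k)).ρ r g⁻¹ (u k))) = u := by
      funext k
      exact (toRep r (Sum.elim T G (c k))).rinv g (u k)
    rw [h3] at h2
    exact h2

section insert

variable {n : ℕ} (c : Fin n → J ⊕ N) (i : J)

theorem jn_eq [DecidableEq J] [DecidableEq N] :
    (fun q : {k // c k = Sum.inl i} ⊕ {k // ¬ c k = Sum.inl i} =>
      Sum.elim T G (c (Equiv.sumCompl (fun k => c k = Sum.inl i) q))) =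
    jn (T i) fun k : {k // ¬ c k = Sum.inl i} => Sum.elim T G (c k) := by
  funext q
  rcases q with ⟨k, hk⟩ | ⟨k, hk⟩
  · change Sum.elim T G (c k) = T i
    rw [hk]
    rfl
  · rfl

variable {c i} in
theorem among_rest {B : Set J} (hc : Among (insert i B) c) {m : ℕ}
    (e : Fin m ≃ {k // ¬ c k = Sum.inl i}) : Among B fun k => c (e k) := by
  intro k i' h
  rcases hc _ i' h with h1 | h1
  · subst h1
    exact absurd h (e k).2
  · exact h1

end insert

/-- **One more motive.** -/
theorem classes_insert [Fintype N] (hbig : ∀ i, (T i).Big r)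
    (hgen : ∀ A : Finset J, Generic T r A) {i : J} (hex : ¬ Exceptional G r (T i)) {B : Set J}
    (h : Classes T G B r r') : Classes T G (insert i B) r r' := by
  classical
  intro n c hc
  let e' := (Fintype.equivFin {k // ¬ c k = Sum.inl i}).symm
  have h1 : Cm (fun k : {k // ¬ c k = Sum.inl i} => Sum.elim T G (c k)) r r' :=
    Cm.of_equiv e' (h _ _ (among_rest hc e'))
  have h2 : Cm (jn (S := {k // c k = Sum.inl i}) (T i)
      fun k : {k // ¬ c k = Sum.inl i} => Sum.elim T G (c k)) r r' :=
    cm_step (fun Φ hΦ => killed_of hbig hgen hex (fun k : {k // ¬ c k = Sum.inl i} => c k)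
      (fun k => k.2) Φ hΦ) h1
  rw [← jn_eq] at h2
  exact Cm.of_equiv (M := fun k => Sum.elim T G (c k))
    (Equiv.sumCompl fun k => c k = Sum.inl i) h2

/-- **One more motive.** -/
theorem lines_insert [Fintype N] (hbig : ∀ i, (T i).Big r)
    (hgen : ∀ A : Finset J, Generic T r A) {i : J} (hex : ¬ Exceptional G r (T i)) {B : Set J}
    (h : Lines T G B r r') : Lines T G (insert i B) r r' := by
  classical
  intro n c hc
  let e' := (Fintype.equivFin {k // ¬ c k = Sum.inl i}).symm
  have h1 : Ln (fun k : {k // ¬ c k = Sum.inl i} => Sum.elim T G (c k)) r r' :=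
    Ln.of_equiv e' (h _ _ (among_rest hc e'))
  have h2 : Ln (jn (S := {k // c k = Sum.inl i}) (T i)
      fun k : {k // ¬ c k = Sum.inl i} => Sum.elim T G (c k)) r r' :=
    ln_step (fun Φ hΦ => killed_of hbig hgen hex (fun k : {k // ¬ c k = Sum.inl i} => c k)
      (fun k => k.2) Φ hΦ) h1
  rw [← jn_eq] at h2
  exact Ln.of_equiv (M := fun k => Sum.elim T G (c k))
    (Equiv.sumCompl fun k => c k = Sum.inl i) h2

theorem among_finite {B U : Set J} {n : ℕ} {c : Fin n → J ⊕ N} (hc : Among (B ∪ U) c) :
    ∃ U' : Finset J, (U' : Set J) ⊆ U ∧ Among (B ∪ U') c := by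
  classical
  have hfin : {i | i ∈ U ∧ ∃ k, c k = Sum.inl i}.Finite := by
    refine ((Set.finite_range c).preimage (f := (Sum.inl : J → J ⊕ N))
      Sum.inl_injective.injOn).subset ?_
    rintro i ⟨-, k, hk⟩
    exact ⟨k, hk⟩
  refine ⟨hfin.toFinset, fun i hi => (hfin.mem_toFinset.1 hi).1, fun k i hk => ?_⟩
  rcases hc k i hk with h | h
  · exact Or.inl h
  · exact Or.inr (hfin.mem_toFinset.2 ⟨h, k, hk⟩)

/-- **The comparison of the classes.** -/
theorem classes_union [Fintype N] (hbig : ∀ i, (T i).Big r)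
    (hgen : ∀ A : Finset J, Generic T r A) {B U : Set J}
    (hU : ∀ i ∈ U, ¬ Exceptional G r (T i)) :
    Classes T G (B ∪ U) r r' ↔ Classes T G B r r' := by
  classical
  constructor
  · intro h n c hc
    exact h n c fun k i hi => Or.inl (hc k i hi)
  · intro h n c hc
    obtain ⟨U', hU', hc'⟩ := among_finite hc
    have key : Classes T G (B ∪ (U' : Set J)) r r' := by
      clear hc'
      induction U' using Finset.induction_on with
      | empty => rwa [Finset.coe_empty, Set.union_empty]
      | insert i U' _ ih =>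
        rw [Finset.coe_insert, Set.union_insert]
        exact classes_insert hbig hgen (hU i (hU' (Finset.mem_insert_self _ _)))
          (ih fun j hj => hU' (Finset.mem_insert_of_mem hj))
    exact key n c hc'

/-- **The comparison of the stable lines.** -/
theorem lines_union [Fintype N] (hbig : ∀ i, (T i).Big r)
    (hgen : ∀ A : Finset J, Generic T r A) {B U : Set J}
    (hU : ∀ i ∈ U, ¬ Exceptional G r (T i)) :
    Lines T G (B ∪ U) r r' ↔ Lines T G B r r' := by
  classical
  constructor
  · intro h n c hc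
    exact h n c fun k i hi => Or.inl (hc k i hi)
  · intro h n c hc
    obtain ⟨U', hU', hc'⟩ := among_finite hc
    have key : Lines T G (B ∪ (U' : Set J)) r r' := by
      clear hc'
      induction U' using Finset.induction_on with
      | empty => rwa [Finset.coe_empty, Set.union_empty]
      | insert i U' _ ih =>
        rw [Finset.coe_insert, Set.union_insert]
        exact lines_insert hbig hgen (hU i (hU' (Finset.mem_insert_self _ _)))
          (ih fun j hj => hU' (Finset.mem_insert_of_mem hj))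
    exact key n c hc'

/-- **The exceptional motives.** -/
theorem exists_exceptional [Fintype N] (hbig : ∀ i, (T i).Big r)
    (hgen : ∀ A : Finset J, Generic T r A) (G : N → Motive χ) :
    ∃ S : Finset J, ∑ i ∈ S, (T i).rank / 2 ≤ ∑ j, (G j).rank / 2 ∧
      ∀ i, i ∈ S ↔ Exceptional G r (T i) := by
  classical
  have hb : ∀ A : Finset J, (∀ i ∈ A, Exceptional G r (T i)) →
      ∑ i ∈ A, (T i).rank / 2 ≤ ∑ j, (G j).rank / 2 := by
    intro A hA
    have h1 := exc_bound (fun j => toRep r (G j)) (gnc_rep (hgen A))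
      (fun i => exc_rep.2 (hA i i.2))
    change ∑ i : A, (T i).rank / 2 ≤ ∑ j, (G j).rank / 2 at h1
    rwa [Finset.sum_coe_sort A fun i => (T i).rank / 2] at h1
  have h2 : ∀ i, 1 ≤ (T i).rank / 2 := fun i => by
    have h3 := two_le_dim (big_rep (hbig i))
    change 2 ≤ (T i).rank at h3
    omega
  have hfin : {i | Exceptional G r (T i)}.Finite := by
    by_contra hinf
    obtain ⟨A, hA, hcard⟩ := Set.Infinite.exists_subset_card_eq hinf
      (∑ j, (G j).rank / 2 + 1)
    have h3 := hb A fun i hi => hA hi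
    have h4 : A.card ≤ ∑ i ∈ A, (T i).rank / 2 := by
      rw [Finset.card_eq_sum_ones]
      exact Finset.sum_le_sum fun i _ => h2 i
    omega
  exact ⟨hfin.toFinset, hb _ fun i hi => hfin.mem_toFinset.1 hi, fun i => hfin.mem_toFinset⟩

end Pool.Agent.H621.MM
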