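import Pool.Agent.TH125.Gal.Grp

/-!
# The orthogonal group and multilinear maps killed by its Lie algebra
-/

set_option autoImplicit false
set_option linter.unusedSectionVars false

namespace Pool.Agent.H621.MM

open Module Finset Function Pool.Agent.TH125.Gal

variable {K : Type} [Field K] [CharZero K] {V : Type} [AddCommGroup V] [Module K V]
  (B : V →ₗ[K] V →ₗ[K] K) (S : Type) [Fintype S] [DecidableEq S]

/-- The operator `g` acts trivially on the multilinear maps which are killed by the Lie algebra. -/
def Ev (g : V →ₗ[K] V) : Prop :=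
  ∀ (E : Type) [AddCommGroup E] [Module K E] (h : MultilinearMap K (fun _ : S => V) E),
    (∀ X, Skew B X → Kill X h) → ∀ v, h (fun j => g (v j)) = h v

variable {B S}

theorem Ev.mul {g g' : End K V} (h : Ev B S g) (h' : Ev B S g') : Ev B S (g * g') := by
  intro E _ _ f hf v
  have h1 := h E f hf fun j => g' (v j)
  have h2 := h' E f hf v
  exact h1.trans h2

theorem Ev.inv {g g' : End K V} (h : Ev B S g) (h' : g * g' = 1) : Ev B S g' := by
  intro E _ _ f hf v
  have h1 := h E f hf fun j => g' (v j)
  have h2 : (fun j => g (g' (v j))) = v := by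
    funext j
    rw [← Module.End.mul_apply, h', Module.End.one_apply]
  rw [h2] at h1
  exact h1.symm

theorem ev_one : Ev B S (1 : End K V) := fun _ _ _ _ _ _ => rfl

theorem prod_zpow {l : K} (hl : l ≠ 0) {ι : Type} (s : Finset ι) (f : ι → ℤ) :
    ∏ i ∈ s, l ^ f i = l ^ ∑ i ∈ s, f i := by
  classical
  induction s using Finset.induction_on with
  | empty => simp
  | insert a s ha ih => rw [Finset.prod_insert ha, Finset.sum_insert ha, zpow_add₀ hl, ih]

/-- **Tori.** -/
theorem ev_torus (hsy : ∀ x y, B x y = B y x) {x y : V} (hx : B x x = 0) (hy : B y y = 0)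
    (hd : B x y ≠ 0) {g : V →ₗ[K] V} {l : K} (hl : l ≠ 0) (hgx : g x = l • x)
    (hgy : g y = l⁻¹ • y) (hg : ∀ z, B x z = 0 → B y z = 0 → g z = z) : Ev B S g := by
  classical
  intro E _ _ h hh v
  set d := B x y with hdd
  have hyx : B y x = d := by rw [hdd, hsy]
  let π : Fin 3 → V → V := fun α v => if α = 0 then (d⁻¹ * B y v) • x else
    if α = 1 then (d⁻¹ * B x v) • y else v - (d⁻¹ * B y v) • x - (d⁻¹ * B x v) • y
  let wt : Fin 3 → ℤ := fun α => if α = 0 then 1 else if α = 1 then -1 else 0
  have hπ0 : ∀ v, π 0 v = (d⁻¹ * B y v) • x := fun v => rfl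
  have hπ1 : ∀ v, π 1 v = (d⁻¹ * B x v) • y := fun v => rfl
  have hπ2 : ∀ v, π 2 v = v - (d⁻¹ * B y v) • x - (d⁻¹ * B x v) • y := fun v => rfl
  have hw0 : wt 0 = 1 := rfl
  have hw1 : wt 1 = -1 := rfl
  have hw2 : wt 2 = 0 := rfl
  have hsum : ∀ v, ∑ α, π α v = v := by
    intro v
    rw [Fin.sum_univ_three, hπ0, hπ1, hπ2]
    abel
  let X : V →ₗ[K] V := (d⁻¹ • B y).smulRight x - (d⁻¹ • B x).smulRight y
  have hXa : ∀ v, X v = (d⁻¹ * B y v) • x - (d⁻¹ * B x v) • y := fun v => rfl
  have hXs : Skew B X := by
    intro u w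
    simp only [hXa, map_sub, map_smul, LinearMap.sub_apply, LinearMap.smul_apply, smul_eq_mul]
    rw [hsy u x, hsy u y]
    ring
  have hX : ∀ α v, X (π α v) = ((wt α : ℤ) : K) • π α v := by
    intro α v
    fin_cases α
    · change X (π 0 v) = ((wt 0 : ℤ) : K) • π 0 v
      rw [hw0, hπ0, hXa, map_smul, map_smul, hyx, hx, smul_eq_mul, smul_eq_mul, mul_zero, mul_zero,
        zero_smul, sub_zero, Int.cast_one, one_smul]
      congr 1
      field_simp
    · change X (π 1 v) = ((wt 1 : ℤ) : K) • π 1 v
      rw [hw1, hπ1, hXa, map_smul, map_smul, ← hdd, hy, smul_eq_mul, smul_eq_mul, mul_zero,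
        mul_zero, zero_smul, zero_sub, Int.cast_neg, Int.cast_one, neg_smul, one_smul]
      congr 2
      field_simp
    · change X (π 2 v) = ((wt 2 : ℤ) : K) • π 2 v
      rw [hw2, hπ2, hXa, Int.cast_zero, zero_smul]
      simp only [map_sub, map_smul, smul_eq_mul, hyx, hx, hy, ← hdd]
      have e1 : d⁻¹ * (B y v - d⁻¹ * B y v * d - d⁻¹ * B x v * 0) = 0 := by
        field_simp
        ring
      have e2 : d⁻¹ * (B x v - d⁻¹ * B y v * 0 - d⁻¹ * B x v * d) = 0 := by
        field_simp
        ring
      rw [e1, e2, zero_smul, zero_smul, sub_zero]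
  have hgπ : ∀ α v, g (π α v) = (l ^ wt α) • π α v := by
    intro α v
    fin_cases α
    · change g (π 0 v) = (l ^ wt 0) • π 0 v
      rw [hw0, hπ0, map_smul, hgx, zpow_one, smul_comm]
    · change g (π 1 v) = (l ^ wt 1) • π 1 v
      rw [hw1, hπ1, map_smul, hgy, zpow_neg_one, smul_comm]
    · change g (π 2 v) = (l ^ wt 2) • π 2 v
      rw [hw2, zpow_zero, one_smul]
      apply hg
      · rw [hπ2]
        simp only [map_sub, map_smul, smul_eq_mul, hx, ← hdd]
        field_simp
        ring
      · rw [hπ2]
        simp only [map_sub, map_smul, smul_eq_mul, hy, hyx]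
        field_simp
        ring
  have e1 : (fun j => g (v j)) = fun j => ∑ α, g (π α (v j)) := by
    funext j
    rw [← map_sum, hsum]
  have e2 : v = fun j => ∑ α, π α (v j) := by
    funext j
    rw [hsum]
  have e3 : h v = ∑ r : S → Fin 3, h fun j => π (r j) (v j) := by
    conv_lhs => rw [e2]
    exact h.map_sum fun j α => π α (v j)
  rw [e1, e3, h.map_sum fun j α => g (π α (v j))]
  refine Finset.sum_congr rfl fun r _ => ?_
  have e4 : (fun j => g (π (r j) (v j))) = fun j => (l ^ wt (r j)) • π (r j) (v j) := by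
    funext j
    exact hgπ _ _
  rw [e4, h.map_smul_univ, prod_zpow hl]
  have e5 := hh X hXs fun j => π (r j) (v j)
  have e6 : ∀ j, h (update (fun j => π (r j) (v j)) j (X (π (r j) (v j)))) =
      ((wt (r j) : ℤ) : K) • h fun j => π (r j) (v j) := by
    intro j
    rw [hX, h.map_update_smul, update_eq_self]
  rw [Finset.sum_congr rfl fun j _ => e6 j, ← Finset.sum_smul, ← Int.cast_sum] at e5
  rcases smul_eq_zero.1 e5 with h0 | h0
  · rw [Int.cast_eq_zero.1 h0, zpow_zero, one_smul]
  · rw [h0, smul_zero]

/-- The reflection. -/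
def refl (B : V →ₗ[K] V →ₗ[K] K) (a : V) : End K V := 1 - ((2 : K) • B a).smulRight a

theorem refl_apply (a v : V) : refl B a v = v - (2 * B a v) • a := rfl

theorem refl_refl {a : V} (ha : B a a = 1) : refl B a * refl B a = 1 := by
  ext v
  rw [Module.End.mul_apply, Module.End.one_apply, refl_apply, refl_apply, map_sub, map_smul, ha,
    sub_sub, ← add_smul, smul_eq_mul]
  have h1 : 2 * B a v + 2 * (B a v - 2 * B a v * 1) = 0 := by ring
  rw [h1, zero_smul, sub_zero]

theorem refl_neg (a : V) : refl B (-a) = refl B a := by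
  ext v
  rw [refl_apply, refl_apply, map_neg, LinearMap.neg_apply, smul_neg, mul_neg, neg_smul, neg_neg]

section pair

variable [IsAlgClosed K] (hsy : ∀ x y, B x y = B y x)
include hsy

theorem refl_orth {a : V} (ha : B a a = 1) (v w : V) : B (refl B a v) (refl B a w) = B v w := by
  simp only [refl_apply, map_sub, map_smul, LinearMap.sub_apply, LinearMap.smul_apply, smul_eq_mul,
    ha]
  rw [hsy v a]
  ring

/-- Products of two reflections, the nondegenerate case. -/
theorem ev_rot {a b : V} (ha : B a a = 1) (hb : B b b = 1) (hab : B a b ^ 2 ≠ 1) :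
    Ev B S (refl B a * refl B b) := by
  set t := B a b with ht
  have hba : B b a = t := by rw [hsy, ht]
  obtain ⟨s, hs⟩ := IsAlgClosed.exists_pow_nat_eq (t ^ 2 - 1) (n := 2) two_pos
  have hs0 : s ≠ 0 := by
    rintro rfl
    apply hab
    linear_combination -hs
  set z := s - t with hz
  have hz2 : z ^ 2 + 2 * t * z + 1 = 0 := by
    rw [hz]
    linear_combination hs
  have hz0 : z ≠ 0 := by
    intro h0
    rw [h0] at hz2
    norm_num at hz2
  have hzi : z⁻¹ = -z - 2 * t := by
    rw [inv_eq_iff_eq_inv, eq_comm, inv_eq_iff_eq_inv]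
    apply eq_inv_of_mul_eq_one_left
    linear_combination -hz2
  have hne : z⁻¹ ≠ z := by
    intro h
    rw [hzi] at h
    apply hs0
    have : 2 * s = 0 := by
      rw [hz] at h
      linear_combination -h
    exact (mul_eq_zero.1 this).resolve_left two_ne_zero
  have hbx : refl B b (a + z • b) = a + z⁻¹ • b := by
    rw [refl_apply, map_add, map_smul, hba, hb, hzi, add_sub_assoc, ← sub_smul, smul_eq_mul]
    congr 2
    ring
  have hby : refl B b (a + z⁻¹ • b) = a + z • b := by
    rw [refl_apply, map_add, map_smul, hba, hb, hzi, add_sub_assoc, ← sub_smul, smul_eq_mul]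
    congr 2
    ring
  have hax : refl B a (a + z • b) = (z ^ 2) • (a + z⁻¹ • b) := by
    rw [refl_apply, map_add, map_smul, ha, ← ht, smul_add, smul_smul, smul_eq_mul]
    have e1 : z ^ 2 * z⁻¹ = z := by
      field_simp
    have e2 : a + z • b - (2 * (1 + z * t)) • a = (1 - 2 * (1 + z * t)) • a + z • b := by
      rw [sub_smul (1 : K), one_smul]
      abel
    rw [e1, e2]
    congr 2
    linear_combination -hz2
  have hay : refl B a (a + z⁻¹ • b) = (z ^ 2)⁻¹ • (a + z • b) := by
    have h1 := congrArg (refl B a) hax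
    rw [← Module.End.mul_apply, refl_refl ha, Module.End.one_apply, map_smul] at h1
    rw [h1, smul_smul, inv_mul_cancel₀ (pow_ne_zero 2 hz0), one_smul]
  refine ev_torus hsy (x := a + z • b) (y := a + z⁻¹ • b) (l := (z ^ 2)⁻¹) ?_ ?_ ?_
    (inv_ne_zero (pow_ne_zero 2 hz0)) ?_ ?_ ?_
  · simp only [map_add, map_smul, LinearMap.add_apply, LinearMap.smul_apply, smul_eq_mul, ha, hb,
      hba, ← ht]
    linear_combination hz2
  · simp only [map_add, map_smul, LinearMap.add_apply, LinearMap.smul_apply, smul_eq_mul, ha, hb,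
      hba, ← ht]
    rw [hzi]
    linear_combination hz2
  · simp only [map_add, map_smul, LinearMap.add_apply, LinearMap.smul_apply, smul_eq_mul, ha, hb,
      hba, ← ht]
    rw [hzi]
    intro h0
    apply hab
    have h2 : 2 * (1 - t ^ 2) = 0 := by linear_combination h0 + hz2
    have h3 := (mul_eq_zero.1 h2).resolve_left two_ne_zero
    linear_combination -h3
  · rw [Module.End.mul_apply, hbx, hay]
  · rw [Module.End.mul_apply, hby, hax, inv_inv]
  · intro w h1 h2
    simp only [map_add, map_smul, LinearMap.add_apply, LinearMap.smul_apply, smul_eq_mul] at h1 h2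
    have h3 : (z⁻¹ - z) * B b w = 0 := by linear_combination h2 - h1
    have h4 : B b w = 0 := (mul_eq_zero.1 h3).resolve_left (sub_ne_zero.2 hne)
    have h5 : B a w = 0 := by rw [h4, mul_zero, add_zero] at h1; exact h1
    have h6 : refl B b w = w := by rw [refl_apply, h4, mul_zero, zero_smul, sub_zero]
    rw [Module.End.mul_apply, h6, refl_apply, h5, mul_zero, zero_smul, sub_zero]

/-- **Products of two reflections.** -/
theorem ev_pair (hnd : ∀ x, (∀ y, B x y = 0) → x = 0) {a b : V} (ha : B a a = 1)
    (hb : B b b = 1) : Ev B S (refl B a * refl B b) := by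
  by_cases hab : B a b ^ 2 = 1
  · -- the case `B a b = 1`
    have key : ∀ b : V, B b b = 1 → B a b = 1 → Ev B S (refl B a * refl B b) := by
      intro b hb hab
      by_cases hn : b - a = 0
      · rw [sub_eq_zero] at hn
        subst hn
        rw [refl_refl ha]
        exact ev_one
      · have h1 : ∃ u, B (b - a) u ≠ 0 := by
          by_contra hcon
          push Not at hcon
          exact hn (hnd _ hcon)
        obtain ⟨u₀, hu₀⟩ := h1
        obtain ⟨u, hu⟩ : ∃ u, B (b - a) u = 1 / 2 := ⟨(1 / 2 * (B (b - a) u₀)⁻¹) • u₀, by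
          rw [map_smul, smul_eq_mul, mul_assoc, inv_mul_cancel₀ hu₀, mul_one]⟩
        have hba : B b a = 1 := by rw [hsy, hab]
        set c₀ := u - B a u • a with hc₀
        have e1 : B a c₀ = 0 := by
          rw [hc₀, map_sub, map_smul, ha, smul_eq_mul, mul_one, sub_self]
        have e2 : B b c₀ = 1 / 2 := by
          rw [hc₀, map_sub, map_smul, hba, smul_eq_mul, mul_one, ← hu, map_sub,
            LinearMap.sub_apply]
        set c := c₀ + (1 - B c₀ c₀) • (b - a) with hc
        have e3 : B a c = 0 := by
          rw [hc, map_add, e1, map_smul, map_sub (B a) b a, hab, ha, sub_self, smul_zero, add_zero]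
        have e4 : B b c = 1 / 2 := by
          rw [hc, map_add, e2, map_smul, map_sub (B b) b a, hb, hba, sub_self, smul_zero, add_zero]
        have e5 : B c c = 1 := by
          rw [hc]
          simp only [map_add, map_smul, map_sub, LinearMap.add_apply, LinearMap.smul_apply,
            LinearMap.sub_apply, smul_eq_mul, e1, e2, hb, ha, hab, hba]
          rw [hsy c₀ a, hsy c₀ b, e1, e2]
          ring
        have h2 : Ev B S (refl B a * refl B c) := ev_rot hsy ha e5 (by
          rw [e3]
          norm_num)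
        have h3 : Ev B S (refl B c * refl B b) := ev_rot hsy e5 hb (by
          rw [hsy, e4]
          norm_num)
        have h4 := h2.mul h3
        rwa [mul_assoc, ← mul_assoc (refl B c), refl_refl e5, one_mul] at h4
    rcases mul_self_eq_one_iff.1 ((sq _).symm.trans hab) with h | h
    · exact key b hb h
    · have h1 := key (-b) (by rw [map_neg, map_neg B b, LinearMap.neg_apply, neg_neg, hb])
        (by rw [map_neg, h, neg_neg])
      rwa [refl_neg] at h1
  · exact ev_rot hsy ha hb hab

theorem ev_up (hnd : ∀ x, (∀ y, B x y = 0) → x = 0) {a₀ a : V} (ha₀ : B a₀ a₀ = 1)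
    (ha : B a a = 1) {g : End K V} (h : Ev B S (refl B a * g) ∨ Ev B S (refl B a₀ * (refl B a * g))) :
    Ev B S g ∨ Ev B S (refl B a₀ * g) := by
  rcases h with h | h
  · right
    have h1 := (ev_pair hsy hnd ha₀ ha (S := S)).mul h
    rwa [mul_assoc, ← mul_assoc (refl B a), refl_refl ha, one_mul] at h1
  · left
    have h1 := (ev_pair hsy hnd ha ha₀ (S := S)).mul h
    rwa [mul_assoc, ← mul_assoc (refl B a₀), refl_refl ha₀, one_mul, ← mul_assoc, refl_refl ha,
      one_mul] at h1

/-- **Products of reflections.** -/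
theorem ev_or (hnd : ∀ x, (∀ y, B x y = 0) → x = 0) {n : ℕ} (t : Basis (Fin n) K V)
    (ht : ∀ i j, B (t i) (t j) = if i = j then 1 else 0) {a₀ : V} (ha₀ : B a₀ a₀ = 1) :
    ∀ k ≤ n, ∀ g : End K V, (∀ x y, B (g x) (g y) = B x y) →
      (∀ i : Fin n, (i : ℕ) + k < n → g (t i) = t i) → Ev B S g ∨ Ev B S (refl B a₀ * g) := by
  intro k
  induction k with
  | zero =>
    intro _ g _ hg
    left
    have h1 : g = 1 := t.ext fun i => hg i (by
      rw [add_zero]
      exact i.2)
    rw [h1]
    exact ev_one
  | succ k ih =>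
    intro hk g hgo hg
    set v := t ⟨n - (k + 1), by omega⟩ with hv
    have hvv : B v v = 1 := by rw [hv, ht, if_pos rfl]
    have hwv : B (g v) (g v) = 1 := by rw [hgo, hvv]
    have hvt : ∀ i : Fin n, (i : ℕ) + (k + 1) < n → B v (t i) = 0 := by
      intro i hi
      rw [hv, ht, if_neg]
      intro h
      rw [← h] at hi
      change n - (k + 1) + (k + 1) < n at hi
      omega
    have hwt : ∀ i : Fin n, (i : ℕ) + (k + 1) < n → B (g v) (t i) = 0 := by
      intro i hi
      rw [← hg i hi, hgo, hvt i hi]
    have hfix : ∀ g' : End K V, (∀ i : Fin n, (i : ℕ) + (k + 1) < n → g' (t i) = t i) →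
        g' v = v → ∀ i : Fin n, (i : ℕ) + k < n → g' (t i) = t i := by
      intro g' h1 h2 i hi
      by_cases h3 : (i : ℕ) + (k + 1) < n
      · exact h1 i h3
      · have h4 : i = ⟨n - (k + 1), by omega⟩ := Fin.ext (by
          change (i : ℕ) = n - (k + 1)
          omega)
        rw [h4]
        exact h2
    by_cases h0 : B (g v - v) (g v - v) = 0
    · -- the other sum
      have h1 : B v (g v) = 1 := by
        simp only [map_sub, LinearMap.sub_apply, hvv, hwv] at h0
        rw [hsy (g v) v] at h0
        have h2 : (2 : K) * (1 - B v (g v)) = 0 := by linear_combination h0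
        have h3 := (mul_eq_zero.1 h2).resolve_left two_ne_zero
        linear_combination -h3
      have h1' : B (g v) v = 1 := by rw [hsy, h1]
      set a := (2⁻¹ : K) • (g v + v) with ha
      have haa : B a a = 1 := by
        rw [ha]
        simp only [map_smul, map_add, LinearMap.smul_apply, LinearMap.add_apply, smul_eq_mul, hvv,
          hwv, h1, h1']
        norm_num
      have e1 : refl B a (g v) = -v := by
        rw [refl_apply, ha]
        simp only [map_smul, map_add, LinearMap.smul_apply, LinearMap.add_apply, smul_eq_mul,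
          hwv, h1]
        rw [smul_smul]
        have : (2 * (2⁻¹ * (1 + 1)) * 2⁻¹ : K) = 1 := by norm_num
        rw [this, one_smul]
        abel
      have e2 : refl B v (-v) = v := by
        rw [map_neg, refl_apply, hvv, mul_one, two_smul]
        abel
      refine ev_up hsy hnd ha₀ haa (ev_up hsy hnd ha₀ hvv (ih (by omega) _ (fun x y => ?_)
        (hfix _ (fun i hi => ?_) ?_)))
      · rw [Module.End.mul_apply, Module.End.mul_apply, Module.End.mul_apply, Module.End.mul_apply,
          refl_orth hsy hvv, refl_orth hsy haa, hgo]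
      · rw [Module.End.mul_apply, Module.End.mul_apply, hg i hi]
        have e3 : refl B a (t i) = t i := by
          rw [refl_apply, ha, map_smul, map_add, LinearMap.smul_apply, LinearMap.add_apply,
            hvt i hi, hwt i hi, add_zero, smul_zero, mul_zero, zero_smul, sub_zero]
        rw [e3, refl_apply, hvt i hi, mul_zero, zero_smul, sub_zero]
      · rw [Module.End.mul_apply, Module.End.mul_apply, e1, e2]
    · obtain ⟨s, hs⟩ := IsAlgClosed.exists_pow_nat_eq (B (g v - v) (g v - v)) (n := 2) two_pos
      have hs0 : s ≠ 0 := by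
        rintro rfl
        apply h0
        rw [← hs]
        norm_num
      have hs2 : s ^ 2 = 2 - 2 * B v (g v) := by
        rw [hs]
        simp only [map_sub, LinearMap.sub_apply, hvv, hwv]
        rw [hsy (g v) v]
        ring
      set a := s⁻¹ • (g v - v) with ha
      have haa : B a a = 1 := by
        rw [ha, map_smul, map_smul, LinearMap.smul_apply, ← hs, smul_eq_mul, smul_eq_mul]
        field_simp
      have e1 : refl B a (g v) = v := by
        rw [refl_apply, ha, map_smul, map_sub, LinearMap.smul_apply, LinearMap.sub_apply, hwv,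
          smul_smul, smul_eq_mul]
        have : 2 * (s⁻¹ * (1 - B v (g v))) * s⁻¹ = 1 := by
          have h3 : (1 - B v (g v)) = s ^ 2 / 2 := by
            rw [hs2]
            ring
          rw [h3]
          field_simp
        rw [this, one_smul]
        abel
      refine ev_up hsy hnd ha₀ haa (ih (by omega) _ (fun x y => ?_)
        (hfix _ (fun i hi => ?_) ?_))
      · rw [Module.End.mul_apply, Module.End.mul_apply, refl_orth hsy haa, hgo]
      · rw [Module.End.mul_apply, hg i hi, refl_apply, ha, map_smul, map_sub,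
          LinearMap.smul_apply, LinearMap.sub_apply, hvt i hi, hwt i hi, sub_zero, smul_zero,
          mul_zero, zero_smul, sub_zero]
      · rw [Module.End.mul_apply, e1]

/-- Orthonormal bases. -/
theorem exists_onb [FiniteDimensional K V] (hnd : ∀ x, (∀ y, B x y = 0) → x = 0) :
    ∃ t : Basis (Fin (finrank K V)) K V, ∀ i j, B (t i) (t j) = if i = j then 1 else 0 := by
  classical
  have hsymm : B.IsSymm := ⟨fun x y => by rw [RingHom.id_apply, hsy]⟩
  have : Invertible (2 : K) := invertibleOfNonzero two_ne_zero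
  obtain ⟨v, hv⟩ := LinearMap.BilinForm.exists_orthogonal_basis hsymm
  have hv' : ∀ i j, i ≠ j → B (v i) (v j) = 0 := fun i j hij => hv hij
  have h1 : ∀ i, B (v i) (v i) ≠ 0 := by
    intro i h0
    have h2 : v i = 0 := hnd _ fun y => by
      rw [← v.sum_repr y, map_sum]
      refine Finset.sum_eq_zero fun j _ => ?_
      rw [map_smul]
      by_cases hij : i = j
      · subst hij
        rw [h0, smul_zero]
      · rw [hv' i j hij, smul_zero]
    exact v.ne_zero i h2
  have h2 : ∀ i, ∃ a : K, a ^ 2 = B (v i) (v i) := fun i =>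
    IsAlgClosed.exists_pow_nat_eq _ two_pos
  choose a ha using h2
  have ha0 : ∀ i, a i ≠ 0 := fun i h0 => h1 i (by rw [← ha, h0, zero_pow two_ne_zero])
  let t : Basis (Fin (finrank K V)) K V := v.unitsSMul fun i =>
    (Units.mk0 (a i)⁻¹ (inv_ne_zero (ha0 i)))
  have ht : ∀ i, t i = (a i)⁻¹ • v i := fun i => Basis.unitsSMul_apply i
  refine ⟨t, fun i j => ?_⟩
  rw [ht, ht, map_smul, map_smul, LinearMap.smul_apply, smul_eq_mul, smul_eq_mul]
  by_cases hij : i = j
  · subst hij
    rw [if_pos rfl, ← ha i]
    have := ha0 i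
    field_simp
  · rw [if_neg hij, hv' i j hij, mul_zero, mul_zero]

/-- **The action on the multilinear maps which are killed by the orthogonal Lie algebra.** -/
theorem orth_scalar [FiniteDimensional K V] (hnd : ∀ x, (∀ y, B x y = 0) → x = 0) {Γ : Type}
    [Group Γ] (ρ : Γ →* (V →ₗ[K] V)) (c : Γ →* Kˣ)
    (hρ : ∀ g x y, B (ρ g x) (ρ g y) = (c g : K) ^ 2 * B x y) : ∃ Δ : Subgroup Γ,
    Δ.FiniteIndex ∧ ∀ g ∈ Δ, ∀ (E : Type) [AddCommGroup E] [Module K E]
      (h : MultilinearMap K (fun _ : S => V) E), (∀ X, Skew B X → Kill X h) →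
      ∀ v, h (fun j => ρ g (v j)) = (c g : K) ^ Fintype.card S • h v := by
  classical
  let u : Γ → End K V := fun g => ((c g : K)⁻¹) • ρ g
  have hu1 : u 1 = 1 := by
    change ((c 1 : K)⁻¹) • ρ 1 = 1
    rw [map_one, map_one, Units.val_one, inv_one, one_smul]
  have hum : ∀ g g', u (g * g') = u g * u g' := by
    intro g g'
    change ((c (g * g') : K)⁻¹) • ρ (g * g') = (((c g : K)⁻¹) • ρ g) * (((c g' : K)⁻¹) • ρ g')
    rw [map_mul, map_mul, Units.val_mul, mul_inv, smul_mul_smul_comm]
  have huo : ∀ g x y, B (u g x) (u g y) = B x y := by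
    intro g x y
    change B (((c g : K)⁻¹) • ρ g x) (((c g : K)⁻¹) • ρ g y) = B x y
    have h0 : (c g : K) ≠ 0 := (c g).ne_zero
    rw [map_smul, map_smul, LinearMap.smul_apply, hρ, smul_eq_mul, smul_eq_mul]
    field_simp
  have hinv : ∀ g, u g * u g⁻¹ = 1 := fun g => by rw [← hum, mul_inv_cancel, hu1]
  let Δ : Subgroup Γ :=
    { carrier := {g | Ev B S (u g)}
      one_mem' := by
        change Ev B S (u 1)
        rw [hu1]
        exact ev_one
      mul_mem' := by
        intro g g' h h'
        change Ev B S (u (g * g'))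
        rw [hum]
        exact Ev.mul h h'
      inv_mem' := by
        intro g h
        exact Ev.inv h (hinv g) }
  refine ⟨Δ, ?_, ?_⟩
  · rcases subsingleton_or_nontrivial V with hV | hV
    · have h1 : Δ = ⊤ := by
        rw [eq_top_iff]
        intro g _ E _ _ h _ v
        have h2 : (fun j => u g (v j)) = v := by
          funext j
          exact Subsingleton.elim _ _
        rw [h2]
      rw [h1]
      infer_instance
    · obtain ⟨t, ht⟩ := exists_onb hsy hnd
      have hn : 0 < finrank K V := finrank_pos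
      have ha₀ : B (t ⟨0, hn⟩) (t ⟨0, hn⟩) = 1 := by rw [ht, if_pos rfl]
      set a₀ := t ⟨0, hn⟩ with ha
      have h1 : ∀ g g', g ∉ Δ → g' ∉ Δ → g⁻¹ * g' ∈ Δ := by
        intro g g' hg hg'
        have h2 : ∀ g, g ∉ Δ → Ev B S (refl B a₀ * u g) := fun g hg =>
          (ev_or hsy hnd t ht ha₀ _ le_rfl (u g) (huo g) fun i hi => by omega).resolve_left hg
        have h3 := h2 g hg
        have h4 := h2 g' hg'
        have h5 : (refl B a₀ * u g) * (u g⁻¹ * refl B a₀) = 1 := by
          rw [mul_assoc, ← mul_assoc (u g), hinv, one_mul, refl_refl ha₀]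
        have h6 := (h3.inv h5).mul h4
        rw [mul_assoc, ← mul_assoc (refl B a₀), refl_refl ha₀, one_mul, ← hum] at h6
        exact h6
      have h7 : Finite (Γ ⧸ Δ) := by
        refine Finite.of_injective (fun q : Γ ⧸ Δ => decide (q = QuotientGroup.mk 1)) ?_
        intro p q hpq
        induction p using QuotientGroup.induction_on with
        | H g =>
          induction q using QuotientGroup.induction_on with
          | H g' =>
            rw [QuotientGroup.eq]
            have h8 : ∀ g : Γ, ((g : Γ ⧸ Δ) = QuotientGroup.mk 1) ↔ g ∈ Δ := by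
              intro g
              rw [eq_comm, QuotientGroup.eq, inv_one, one_mul]
            have h9 : (g ∈ Δ) ↔ (g' ∈ Δ) := by
              rw [← h8, ← h8]
              exact decide_eq_decide.1 hpq
            by_cases hg : g ∈ Δ
            · exact Δ.mul_mem (Δ.inv_mem hg) (h9.1 hg)
            · exact h1 g g' hg fun h => hg (h9.2 h)
      exact Subgroup.finiteIndex_of_finite_quotient
  · intro g hg E _ _ h hh v
    have h1 := hg E h hh v
    have h2 : (fun j => ρ g (v j)) = fun j => (c g : K) • u g (v j) := by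
      funext j
      change ρ g (v j) = (c g : K) • ((c g : K)⁻¹) • ρ g (v j)
      rw [smul_smul, mul_inv_cancel₀ (c g).ne_zero, one_smul]
    rw [h2, h.map_smul_univ, Finset.prod_const, Finset.card_univ, h1]

end pair

end Pool.Agent.H621.MM
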